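import Pool.Agent.N84.TS.Gen
import Pool.Agent.TH838.DS.QSieve

set_option autoImplicit false

/-!
Tuples of quadratic rational functions whose coefficients are integer parts of generalised
polynomials.
-/

namespace Pool.Agent.N84.TS

open Filter Pool.Agent.TH838.DS Pool.Agent.H684R3.Smo Pool.Agent.N666.TM Pool.Agent.Y722.HS
open Pool.Agent.N666.VE (primes)

/-- the good tuples of integral quadratic functions -/
def GoodQ (k : ℕ) (v : Fin k × Fin 2 × Fin (2 + 1) → ℤ) : Prop :=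
  ∃ (p : ℕ) (_ : Fact p.Prime), p ≠ 2 ∧
    GoodT fun (i : Fin k) (q : Fin 2 × Fin (2 + 1)) => ((v (i, q) : ℤ) : ZMod p)

theorem quad_sieve (k : ℕ) (hk : 1 ≤ k) (κ' : ℝ) (hκ' : 0 < κ') : ∃ δ : ℝ, 0 < δ ∧
    ∀ (S : ℕ → Finset ℕ) (x : ℕ → (Fin k × Fin 2 × Fin (2 + 1)) → ℤ),
      (∃ N₀ : ℕ, ∀ N : ℕ, N₀ ≤ N → ∀ H : ℕ, (H : ℝ) ≤ (N : ℝ) ^ κ' → Well (S N) x H) →
      ∃ N₀ : ℕ, ∀ N : ℕ, N₀ ≤ N →
        ({t : ℕ | t ∈ S N ∧ t ∈ {t | ¬ GoodQ k (x t)}}.ncard : ℝ) ≤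
          (N : ℝ) ^ (-δ) * (S N).card := by
  classical
  have hne : Nonempty (Fin k) := ⟨⟨0, hk⟩⟩
  have hcard : Fintype.card (Fin k × Fin 2 × Fin (2 + 1)) = 6 * k := by
    rw [Fintype.card_prod, Fintype.card_prod, Fintype.card_fin, Fintype.card_fin,
      Fintype.card_fin]
    ring
  let P : ℕ → Prop := fun p => p.Prime ∧ 2 * 16 ^ k ≤ p
  let G : ∀ p : ℕ, Set ((Fin k × Fin 2 × Fin (2 + 1)) → ZMod p) := fun p =>
    {w | ∃ _ : Fact p.Prime, GoodT fun (i : Fin k) (q : Fin 2 × Fin (2 + 1)) => w (i, q)}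
  set κ : ℝ := 1 / (2 * 4 ^ k * 16 ^ (k * k)) with hκ
  have hκ0 : 0 < κ := by positivity
  have hG : ∀ p, P p → p.Prime ∧
      κ * (p : ℝ) ^ Fintype.card (Fin k × Fin 2 × Fin (2 + 1)) ≤ (Nat.card (G p) : ℝ) := by
    intro p hp
    have hpp : Fact p.Prime := ⟨hp.1⟩
    refine ⟨hp.1, ?_⟩
    have h1 := count_good (p := p) (ι := Fin k) (by rw [Fintype.card_fin]; exact hp.2)
    rw [Fintype.card_fin] at h1
    rw [hcard]
    refine h1.trans (le_of_eq ?_)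
    congr 1
    let E : (Fin k → Fin 2 × Fin (2 + 1) → ZMod p) ≃ ((Fin k × Fin 2 × Fin (2 + 1)) → ZMod p) :=
      { toFun := fun c j => c j.1 j.2
        invFun := fun w i q => w (i, q)
        left_inv := fun c => rfl
        right_inv := fun w => rfl }
    refine Nat.card_congr (E.subtypeEquiv fun c => ?_)
    constructor
    · intro h
      exact ⟨hpp, h⟩
    · rintro ⟨_, h⟩
      exact h
  obtain ⟨δ, hδ, h⟩ := thin_sieve P G κ (1 / 2) hκ0 (by norm_num) hG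
    (t9 (1 / 2) (2 * 16 ^ k) (by norm_num)) κ' hκ'
  refine ⟨δ, hδ, fun S x hw => ?_⟩
  obtain ⟨N₀, hN₀⟩ := h S x hw
  refine ⟨N₀, fun N hN => le_trans ?_ (hN₀ N hN)⟩
  have hsub : {t : ℕ | t ∈ S N ∧ t ∈ {t | ¬ GoodQ k (x t)}} ⊆
      ↑((S N).filter fun n => ∀ p, P p → (p : ℝ) ≤ Real.log N ^ (2 / (1 / 2 : ℝ)) →
        red p (x n) ∉ G p) := by
    rintro n ⟨hn, hn'⟩
    rw [Finset.mem_coe, Finset.mem_filter]
    refine ⟨hn, fun p hp _ hG' => hn' ?_⟩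
    obtain ⟨hpp, h⟩ := hG'
    refine ⟨p, hpp, ?_, h⟩
    have h1 : 16 ^ 1 ≤ 16 ^ k := Nat.pow_le_pow_right (by norm_num) hk
    have h2 := hp.2
    omega
  have h2 := Set.ncard_le_ncard hsub (Finset.finite_toSet _)
  rw [Set.ncard_coe_finset] at h2
  exact_mod_cast h2

/-- the integer part of the value of a generalised polynomial -/
noncomputable def vl (F : ℕ → Finset ℝ) (a : ℕ → ℝ → ℝ) (l t : ℕ) : ℤ :=
  ⌊∑ x ∈ F l, a l x * (t : ℝ) ^ x⌋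

theorem one_set {F : ℕ → Finset ℝ} {a : ℕ → ℝ → ℝ} {c : ℕ → ℝ}
    (h : ∀ i, c i ∈ F i ∧ (∀ t ∈ F i, t ≤ c i) ∧ 0 < c i ∧ (∀ m : ℕ, c i ≠ m) ∧ 0 < a i (c i))
    (hc : Function.Injective c) :
    ∃ E : Set ℕ, VeryThin (fun N => Finset.Ioc N (2 * N)) E ∧ VeryThin primes E ∧
      ∀ (k : ℕ), 1 ≤ k → ∀ l : Fin k × Fin 2 × Fin (2 + 1) → ℕ, Function.Injective l →
        {t : ℕ | t ∉ E ∧ ¬ GoodQ k (fun q => vl F a (l q) t)}.Finite := by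
  classical
  set E : ℕ → Set ℕ := fun K => {t | ∃ k, 1 ≤ k ∧ k ≤ K ∧
    ∃ l : Fin k × Fin 2 × Fin (2 + 1) → ℕ, Function.Injective l ∧ (∀ q, l q < K) ∧
      ¬ GoodQ k (fun q => vl F a (l q) t)} with hE
  have hmono : Monotone E := by
    rintro K K' hK t ⟨k, hk1, hk2, l, hl, hlK, hg⟩
    exact ⟨k, hk1, hk2.trans hK, l, hl, fun q => lt_of_lt_of_le (hlK q) hK, hg⟩
  have hfix : ∀ k, 1 ≤ k → ∀ l : Fin k × Fin 2 × Fin (2 + 1) → ℕ, Function.Injective l →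
      VeryThin (fun N => Finset.Ioc N (2 * N)) {t | ¬ GoodQ k (fun q => vl F a (l q) t)} ∧
      VeryThin primes {t | ¬ GoodQ k (fun q => vl F a (l q) t)} := by
    intro k hk l hl
    have hne : Nonempty (Fin k × Fin 2 × Fin (2 + 1)) := ⟨(⟨0, hk⟩, 0, 0)⟩
    obtain ⟨⟨κ₁, hκ₁, g₁⟩, ⟨κ₂, hκ₂, g₂⟩⟩ := fl_well (ι := Fin k × Fin 2 × Fin (2 + 1))
      (F := fun q => F (l q)) (a := fun q => a (l q)) (c := fun q => c (l q))
      (fun q => h (l q)) (hc.comp hl)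
    obtain ⟨δ₁, hδ₁, k₁⟩ := quad_sieve k hk κ₁ hκ₁
    obtain ⟨δ₂, hδ₂, k₂⟩ := quad_sieve k hk κ₂ hκ₂
    exact ⟨veryThin_of_pow hδ₁ (k₁ _ _ g₁), veryThin_of_pow hδ₂ (k₂ _ _ g₂)⟩
  have hkey : ∀ S : ℕ → Finset ℕ, (∀ k, 1 ≤ k → ∀ l : Fin k × Fin 2 × Fin (2 + 1) → ℕ,
      Function.Injective l → VeryThin S {t | ¬ GoodQ k (fun q => vl F a (l q) t)}) →
      ∀ K, VeryThin S (E K) := by
    intro S hS K
    refine veryThin_mono (E' := ⋃ k ∈ Finset.Icc 1 K,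
      ⋃ l ∈ (Finset.univ : Finset (Fin k × Fin 2 × Fin (2 + 1) → Fin K)).filter
        (fun l => Function.Injective l),
        {t | ¬ GoodQ k (fun q => vl F a (l q) t)}) ?_ ?_
    · rintro t ⟨k, hk1, hk2, l, hl, hlK, hg⟩
      rw [Set.mem_iUnion₂]
      refine ⟨k, Finset.mem_Icc.mpr ⟨hk1, hk2⟩, ?_⟩
      rw [Set.mem_iUnion₂]
      refine ⟨fun q => ⟨l q, hlK q⟩, ?_, hg⟩
      rw [Finset.mem_filter]
      refine ⟨Finset.mem_univ _, fun q q' hq => hl ?_⟩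
      exact congrArg Fin.val hq
    · refine veryThin_biUnion _ _ fun k hk => ?_
      refine veryThin_biUnion _ _ fun l hl => ?_
      rw [Finset.mem_filter] at hl
      exact hS k (Finset.mem_Icc.mp hk).1 (fun q => l q)
        (fun q q' hq => hl.2 (Fin.ext hq))
  obtain ⟨E', h1, h2, h3⟩ := diag' hmono (fun N => Finset.Subset.refl _)
    (fun N => Finset.filter_subset _ _)
    (hkey _ fun k hk l hl => (hfix k hk l hl).1) (hkey _ fun k hk l hl => (hfix k hk l hl).2)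
  refine ⟨E', h1, h2, fun k hk l hl => ?_⟩
  obtain ⟨B, hB⟩ := (Set.finite_range l).bddAbove
  refine (h3 (max k (B + 1))).subset ?_
  rintro t ⟨ht, ht'⟩
  refine ⟨⟨k, hk, le_max_left _ _, l, hl, fun q => ?_, ht'⟩, ht⟩
  have h4 : l q ≤ B := hB ⟨q, rfl⟩
  have h5 : B + 1 ≤ max k (B + 1) := le_max_right _ _
  omega

end Pool.Agent.N84.TS
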