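import Pool.Agent.N84.TS.Union
import Pool.Agent.N666.TM.Thin

set_option autoImplicit false

/-!
The sieve along well distributed sequences in terms of `N`, and one exceptional set for countably many
conditions.
-/

namespace Pool.Agent.N84.TS

open Filter Pool.Agent.TH838.SK Pool.Agent.H684R3.Smo Pool.Agent.N666.TM Pool.Agent.Y722.HS
  Pool.Agent.R851.SK

open Classical in
/-- For all but the proportion `N ^ (-δ)` of the members of `S N` the vector lies in one of the sets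
`G p` for some prime `p ≤ (log N) ^ (2 / θ)` of `P`. -/
theorem thin_sieve {ι : Type} [Fintype ι] [DecidableEq ι] (P : ℕ → Prop)
    (G : ∀ p : ℕ, Set (ι → ZMod p)) (κ θ : ℝ) (hκ : 0 < κ) (hθ : 0 < θ)
    (hG : ∀ p, P p → p.Prime ∧ κ * (p : ℝ) ^ (Fintype.card ι) ≤ (Nat.card (G p) : ℝ))
    (hN : ∃ y₀ : ℕ, ∀ y : ℕ, y₀ ≤ y → (y : ℝ) ^ θ ≤ (Nat.card {p : ℕ // P p ∧ p ≤ y} : ℝ))
    (κ' : ℝ) (hκ' : 0 < κ') : ∃ δ : ℝ, 0 < δ ∧ ∀ (S : ℕ → Finset ℕ) (x : ℕ → ι → ℤ),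
      (∃ N₀ : ℕ, ∀ N : ℕ, N₀ ≤ N → ∀ H : ℕ, (H : ℝ) ≤ (N : ℝ) ^ κ' → Well (S N) x H) →
      ∃ N₀ : ℕ, ∀ N : ℕ, N₀ ≤ N →
        (((S N).filter fun n => ∀ p, P p → (p : ℝ) ≤ Real.log N ^ (2 / θ) →
          red p (x n) ∉ G p).card : ℝ) ≤ (N : ℝ) ^ (-δ) * (S N).card := by
  obtain ⟨δ, hδ, H₀, h⟩ := t5w t2 ι P κ θ 0 hκ hθ le_rfl hN
  set κ₁ : ℝ := min κ' 1 with hκ₁
  have hκ₁0 : 0 < κ₁ := lt_min hκ' one_pos
  refine ⟨κ₁ / 2 * δ, by positivity, fun S x hw => ?_⟩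
  obtain ⟨N₁, hN₁⟩ := hw
  have hev : ∀ᶠ N : ℕ in atTop, (H₀ : ℝ) + 3 ≤ (N : ℝ) ^ (κ₁ / 2) := by
    have h1 : Tendsto (fun N : ℕ => (N : ℝ) ^ (κ₁ / 2)) atTop atTop :=
      (tendsto_rpow_atTop (by positivity)).comp tendsto_natCast_atTop_atTop
    exact h1.eventually_ge_atTop _
  obtain ⟨N₂, hN₂⟩ := eventually_atTop.mp hev
  refine ⟨max N₁ (max N₂ 1), fun N hN => ?_⟩
  have hNN1 : N₁ ≤ N := (le_max_left _ _).trans hN
  have hNN2 : N₂ ≤ N := (le_max_left _ _).trans ((le_max_right _ _).trans hN)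
  have hN1 : 1 ≤ N := (le_max_right _ _).trans ((le_max_right _ _).trans hN)
  have hNr : (1 : ℝ) ≤ N := by exact_mod_cast hN1
  have hN0 : (0 : ℝ) < N := by linarith
  set y : ℝ := (N : ℝ) ^ (κ₁ / 2) with hy
  have hyy : (N : ℝ) ^ κ₁ = y * y := by
    rw [hy, ← Real.rpow_add hN0]; congr 1; ring
  have hy3 : (H₀ : ℝ) + 3 ≤ y := hN₂ N hNN2
  have hH0r : (0 : ℝ) ≤ H₀ := Nat.cast_nonneg _
  set H : ℕ := ⌊(N : ℝ) ^ κ₁⌋₊ with hH
  have hHle : (H : ℝ) ≤ (N : ℝ) ^ κ₁ := Nat.floor_le (by positivity)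
  have hHge : y ≤ (H : ℝ) := by
    have h1 : (N : ℝ) ^ κ₁ < H + 1 := Nat.lt_floor_add_one _
    rw [hyy] at h1
    nlinarith
  have hHH₀ : H₀ ≤ H := by
    have : (H₀ : ℝ) ≤ H := by linarith
    exact_mod_cast this
  have hHκ : (H : ℝ) ≤ (N : ℝ) ^ κ' :=
    hHle.trans (Real.rpow_le_rpow_of_exponent_le hNr (min_le_left _ _))
  have hHN : (H : ℝ) ≤ N := by
    have h1 : (N : ℝ) ^ κ₁ ≤ (N : ℝ) ^ (1 : ℝ) :=
      Real.rpow_le_rpow_of_exponent_le hNr (min_le_right _ _)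
    rw [Real.rpow_one] at h1
    exact hHle.trans h1
  have hH1 : (1 : ℝ) ≤ H := by linarith
  have hH0 : (0 : ℝ) < H := by linarith
  have hX : (N : ℝ) ^ (κ₁ / 2 * δ) ≤ (H : ℝ) ^ δ := by
    rw [Real.rpow_mul hN0.le]
    exact Real.rpow_le_rpow (by positivity) hHge hδ.le
  have hX' : (H : ℝ) ^ (-δ) ≤ (N : ℝ) ^ (-(κ₁ / 2 * δ)) := by
    rw [Real.rpow_neg hH0.le, Real.rpow_neg hN0.le]
    exact inv_anti₀ (by positivity) hX
  have hlog : Real.log H ^ (2 / θ) ≤ Real.log N ^ (2 / θ) :=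
    Real.rpow_le_rpow (Real.log_nonneg hH1) (Real.log_le_log hH0 hHN) (by positivity)
  have h1 := h H hHH₀ ∅ (by simp) G (fun p hp _ => hG p hp) (S N) x (hN₁ N hNN1 H hHκ)
  have h2 : (((S N).filter fun n => ∀ p, P p → (p : ℝ) ≤ Real.log N ^ (2 / θ) →
      red p (x n) ∉ G p).card : ℝ) ≤
      (((S N).filter fun n => ∀ p, P p → p ∉ (∅ : Finset ℕ) → (p : ℝ) ≤ Real.log H ^ (2 / θ) →
        red p (x n) ∉ G p).card : ℝ) := by
    apply Nat.cast_le.2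
    apply Finset.card_le_card
    intro n hn
    rw [Finset.mem_filter] at hn ⊢
    exact ⟨hn.1, fun p hp _ hpH => hn.2 p hp (hpH.trans hlog)⟩
  refine h2.trans (h1.trans ?_)
  rw [mul_comm]
  exact mul_le_mul_of_nonneg_right hX' (Nat.cast_nonneg _)

/-- `E` contains only the proportion `(log N) ^ (-A)` of `S N`, for every `A`. -/
def VeryThin (S : ℕ → Finset ℕ) (E : Set ℕ) : Prop :=
  ∀ A : ℕ, ∃ N₀ : ℕ, ∀ N : ℕ, N₀ ≤ N →
    ({t : ℕ | t ∈ S N ∧ t ∈ E}.ncard : ℝ) * Real.log N ^ A ≤ (S N).card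

theorem veryThin_of_pow {S : ℕ → Finset ℕ} {E : Set ℕ} {δ : ℝ} (hδ : 0 < δ)
    (h : ∃ N₀ : ℕ, ∀ N : ℕ, N₀ ≤ N →
      ({t : ℕ | t ∈ S N ∧ t ∈ E}.ncard : ℝ) ≤ (N : ℝ) ^ (-δ) * (S N).card) : VeryThin S E := by
  intro A
  obtain ⟨N₁, hN₁⟩ := h
  have h1 : ∀ᶠ x : ℝ in atTop, Real.log x ^ A ≤ x ^ δ := by
    have h2 := (isLittleO_log_rpow_atTop (show 0 < δ / (A + 1) by positivity)).bound
      (show (0 : ℝ) < 1 by norm_num)
    filter_upwards [h2, eventually_ge_atTop (1 : ℝ)] with x hx hx1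
    rw [one_mul, Real.norm_of_nonneg (Real.log_nonneg hx1),
      Real.norm_of_nonneg (by positivity)] at hx
    calc Real.log x ^ A ≤ (x ^ (δ / (A + 1))) ^ A :=
          pow_le_pow_left₀ (Real.log_nonneg hx1) hx A
      _ = x ^ (δ / (A + 1) * A) := by
          rw [← Real.rpow_natCast, ← Real.rpow_mul (by linarith)]
      _ ≤ x ^ δ := by
          apply Real.rpow_le_rpow_of_exponent_le hx1
          rw [div_mul_eq_mul_div, div_le_iff₀ (by positivity)]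
          nlinarith
  obtain ⟨X, hX⟩ := eventually_atTop.mp h1
  refine ⟨max N₁ (⌈X⌉₊ + 1), fun N hN => ?_⟩
  have hNN₁ : N₁ ≤ N := (le_max_left _ _).trans hN
  have hNX : X ≤ N := (Nat.le_ceil X).trans (by
    have : ⌈X⌉₊ + 1 ≤ N := (le_max_right _ _).trans hN
    exact_mod_cast (by omega : ⌈X⌉₊ ≤ N))
  have hN0 : (0 : ℝ) < N := by
    have : ⌈X⌉₊ + 1 ≤ N := (le_max_right _ _).trans hN
    exact_mod_cast (by omega : 0 < N)
  have h3 := hX N hNX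
  have h4 := hN₁ N hNN₁
  have hlog : 0 ≤ Real.log N ^ A := by
    have : 0 ≤ Real.log (N : ℝ) := Real.log_natCast_nonneg N
    positivity
  calc _ ≤ ((N : ℝ) ^ (-δ) * (S N).card) * Real.log N ^ A := mul_le_mul_of_nonneg_right h4 hlog
    _ ≤ ((N : ℝ) ^ (-δ) * (S N).card) * (N : ℝ) ^ δ :=
        mul_le_mul_of_nonneg_left h3 (by positivity)
    _ = ((N : ℝ) ^ (-δ) * (N : ℝ) ^ δ) * (S N).card := by ring
    _ = (S N).card := by rw [← Real.rpow_add hN0]; simp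

theorem veryThin_union {S : ℕ → Finset ℕ} {E E' : Set ℕ} (h : VeryThin S E) (h' : VeryThin S E') :
    VeryThin S (E ∪ E') := by
  intro A
  obtain ⟨N₁, h1⟩ := h (A + 1)
  obtain ⟨N₂, h2⟩ := h' (A + 1)
  refine ⟨max (max N₁ N₂) 8, fun N hN => ?_⟩
  have a1 := h1 N ((le_max_left _ _).trans ((le_max_left _ _).trans hN))
  have a2 := h2 N ((le_max_right _ _).trans ((le_max_left _ _).trans hN))
  have hN8 : (8 : ℝ) ≤ N := by exact_mod_cast (le_max_right _ _).trans hN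
  have hlog2 : 2 ≤ Real.log N := by
    rw [Real.le_log_iff_exp_le (by linarith)]
    have h3 := Real.exp_one_lt_d9
    have h4 : Real.exp 2 = Real.exp 1 * Real.exp 1 := by rw [← Real.exp_add]; norm_num
    rw [h4]
    have h5 := Real.exp_pos 1
    nlinarith
  have hfin : ∀ F : Set ℕ, ({t : ℕ | t ∈ S N ∧ t ∈ F}).Finite := fun F =>
    (S N).finite_toSet.subset fun t ht => ht.1
  have hsub : {t : ℕ | t ∈ S N ∧ t ∈ E ∪ E'} ⊆
      {t : ℕ | t ∈ S N ∧ t ∈ E} ∪ {t : ℕ | t ∈ S N ∧ t ∈ E'} := by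
    rintro t ⟨ht, hE | hE⟩
    · exact Or.inl ⟨ht, hE⟩
    · exact Or.inr ⟨ht, hE⟩
  have hc : ({t : ℕ | t ∈ S N ∧ t ∈ E ∪ E'}.ncard : ℝ) ≤
      ({t : ℕ | t ∈ S N ∧ t ∈ E}.ncard : ℝ) + ({t : ℕ | t ∈ S N ∧ t ∈ E'}.ncard : ℝ) := by
    exact_mod_cast (Set.ncard_le_ncard hsub ((hfin E).union (hfin E'))).trans
      (Set.ncard_union_le _ _)
  have hpos : 0 ≤ Real.log (N : ℝ) ^ A := by positivity
  rw [pow_succ] at a1 a2
  have b1 : ({t : ℕ | t ∈ S N ∧ t ∈ E}.ncard : ℝ) * (Real.log N ^ A * 2) ≤ (S N).card :=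
    le_trans (by gcongr) a1
  have b2 : ({t : ℕ | t ∈ S N ∧ t ∈ E'}.ncard : ℝ) * (Real.log N ^ A * 2) ≤ (S N).card :=
    le_trans (by gcongr) a2
  have b3 : ({t : ℕ | t ∈ S N ∧ t ∈ E ∪ E'}.ncard : ℝ) * Real.log N ^ A ≤
      (({t : ℕ | t ∈ S N ∧ t ∈ E}.ncard : ℝ) + ({t : ℕ | t ∈ S N ∧ t ∈ E'}.ncard : ℝ)) *
        Real.log N ^ A := mul_le_mul_of_nonneg_right hc hpos
  linarith

theorem veryThin_mono {S : ℕ → Finset ℕ} {E E' : Set ℕ} (hEE : E ⊆ E') (h : VeryThin S E') :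
    VeryThin S E := by
  intro A
  obtain ⟨N₁, h1⟩ := h A
  refine ⟨N₁, fun N hN => le_trans ?_ (h1 N hN)⟩
  have hsub : {t : ℕ | t ∈ S N ∧ t ∈ E} ⊆ {t : ℕ | t ∈ S N ∧ t ∈ E'} :=
    fun t ht => ⟨ht.1, hEE ht.2⟩
  have hc := Set.ncard_le_ncard hsub ((S N).finite_toSet.subset fun t ht => ht.1)
  have hpos : 0 ≤ Real.log (N : ℝ) ^ A := by
    have : 0 ≤ Real.log (N : ℝ) := Real.log_natCast_nonneg N
    positivity
  exact mul_le_mul_of_nonneg_right (by exact_mod_cast hc) hpos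

theorem veryThin_biUnion {S : ℕ → Finset ℕ} {α : Type} (T : Finset α) (E : α → Set ℕ)
    (h : ∀ a ∈ T, VeryThin S (E a)) : VeryThin S (⋃ a ∈ T, E a) := by
  classical
  induction T using Finset.induction_on with
  | empty =>
    intro A
    refine ⟨0, fun N _ => ?_⟩
    simp
  | insert a T ha ih =>
    rw [Finset.set_biUnion_insert]
    exact veryThin_union (h a (Finset.mem_insert_self _ _))
      (ih fun b hb => h b (Finset.mem_insert_of_mem hb))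

/-- one very thin set for an increasing sequence of very thin sets -/
theorem diag' {E : ℕ → Set ℕ} (hmono : Monotone E) {S₁ S₂ : ℕ → Finset ℕ}
    (hS₁ : ∀ N, S₁ N ⊆ Finset.Ioc N (2 * N)) (hS₂ : ∀ N, S₂ N ⊆ Finset.Ioc N (2 * N))
    (h₁ : ∀ k, VeryThin S₁ (E k)) (h₂ : ∀ k, VeryThin S₂ (E k)) :
    ∃ E' : Set ℕ, VeryThin S₁ E' ∧ VeryThin S₂ E' ∧ ∀ k, (E k \ E').Finite := by
  classical
  have hg : ∀ k : ℕ, ∃ g : ℕ, 3 ≤ g ∧ ∀ N : ℕ, g ≤ N →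
      ({t : ℕ | t ∈ S₁ N ∧ t ∈ E k}.ncard : ℝ) * Real.log N ^ k ≤ (S₁ N).card ∧
      ({t : ℕ | t ∈ S₂ N ∧ t ∈ E k}.ncard : ℝ) * Real.log N ^ k ≤ (S₂ N).card := by
    intro k
    obtain ⟨N₁, a1⟩ := h₁ k k
    obtain ⟨N₂, a2⟩ := h₂ k k
    exact ⟨max 3 (max N₁ N₂), le_max_left _ _, fun N hN =>
      ⟨a1 N ((le_max_left _ _).trans ((le_max_right _ _).trans hN)),
        a2 N ((le_max_right _ _).trans ((le_max_right _ _).trans hN))⟩⟩
  choose g hg3 hg using hg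
  set κ : ℕ → ℕ := fun t => Nat.findGreatest (fun k => 2 * g k ≤ t) t with hκ
  have hκmono : Monotone κ := by
    intro t t' htt
    exact Nat.findGreatest_mono (fun k hk => le_trans hk htt) htt
  have hκge : ∀ k t, k ≤ t → 2 * g k ≤ t → k ≤ κ t := fun k t h1 h2 => Nat.le_findGreatest h1 h2
  have hκsp : ∀ t, κ t ≠ 0 → 2 * g (κ t) ≤ t := by
    intro t h0
    exact Nat.findGreatest_of_ne_zero (P := fun k => 2 * g k ≤ t) (n := t) rfl h0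
  have key : ∀ (S : ℕ → Finset ℕ), (∀ N, S N ⊆ Finset.Ioc N (2 * N)) →
      (∀ k N, g k ≤ N → ({t : ℕ | t ∈ S N ∧ t ∈ E k}.ncard : ℝ) * Real.log N ^ k ≤ (S N).card) →
      VeryThin S {t | t ∈ E (κ t)} := by
    intro S hS hb A
    refine ⟨A + 1 + g (A + 1), fun N hN => ?_⟩
    have hk : A + 1 ≤ κ (2 * N) := hκge _ _ (by omega) (by omega)
    have hgN : g (κ (2 * N)) ≤ N := by
      have := hκsp (2 * N) (by omega)
      omega
    have hN3 : 3 ≤ N := (hg3 _).trans hgN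
    have hsub : {t : ℕ | t ∈ S N ∧ t ∈ {t | t ∈ E (κ t)}} ⊆
        {t : ℕ | t ∈ S N ∧ t ∈ E (κ (2 * N))} := by
      rintro t ⟨ht, ht'⟩
      exact ⟨ht, hmono (hκmono (Finset.mem_Ioc.mp (hS N ht)).2) ht'⟩
    have hfin : {t : ℕ | t ∈ S N ∧ t ∈ E (κ (2 * N))}.Finite :=
      (S N).finite_toSet.subset fun t ht => ht.1
    have h3 := hb (κ (2 * N)) N hgN
    have h4 : (({t : ℕ | t ∈ S N ∧ t ∈ {t | t ∈ E (κ t)}}.ncard : ℕ) : ℝ) ≤
        ({t : ℕ | t ∈ S N ∧ t ∈ E (κ (2 * N))}.ncard : ℕ) := by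
      exact_mod_cast Set.ncard_le_ncard hsub hfin
    have hlog1 : 1 ≤ Real.log N := by
      rw [Real.le_log_iff_exp_le (by exact_mod_cast (by omega : 0 < N))]
      have h5 := Real.exp_one_lt_d9
      have h6 : (3 : ℝ) ≤ N := by exact_mod_cast hN3
      linarith
    have h5 : Real.log (N : ℝ) ^ A ≤ Real.log N ^ (κ (2 * N)) :=
      pow_le_pow_right₀ hlog1 (by omega)
    calc _ ≤ (({t : ℕ | t ∈ S N ∧ t ∈ E (κ (2 * N))}.ncard : ℕ) : ℝ) *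
          Real.log N ^ (κ (2 * N)) := by gcongr
      _ ≤ _ := h3
  refine ⟨{t | t ∈ E (κ t)}, key S₁ hS₁ fun k N hk => (hg k N hk).1,
    key S₂ hS₂ fun k N hk => (hg k N hk).2, fun k => ?_⟩
  refine (Set.finite_Iio (k + 2 * g k + 1)).subset ?_
  rintro t ⟨ht, ht'⟩
  simp only [Set.mem_Iio]
  by_contra hlt
  exact ht' (hmono (hκge k t (by omega) (by omega)) ht)

end Pool.Agent.N84.TS
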