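import Pool.Agent.N84.TS.Union
import Pool.Agent.R851.SK.MainF
import Pool.Agent.N666.TM.Thin

set_option autoImplicit false

/-!
Recurrences whose vectors of coefficients run through a well distributed sequence: all small nonzero
initial values.
-/

namespace Pool.Agent.N84.TS

open Filter Finset Pool.Agent.TH838.SK Pool.Agent.H684R3.Smo Pool.Agent.H884R2.Sko
  Pool.Agent.H692R2.USS Pool.Agent.N666.TM Pool.Agent.Y722.HS Pool.Agent.R851.SK

open Classical in
/-- the sieve for the recurrences -/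
theorem rec_sieve (d : ℕ) (hd : 1 ≤ d) : ∃ A δ : ℝ, 0 < A ∧ 0 < δ ∧ ∃ H₀ : ℕ, ∀ H : ℕ, H₀ ≤ H →
    ∀ (S : Finset ℕ) (x : ℕ → Fin d → ℤ), Well S x H →
      ((S.filter fun n => ¬ EasyF d ((H : ℝ) ^ δ) (Real.log H ^ A) (x n)).card : ℝ) ≤
        S.card * (H : ℝ) ^ (-δ) := by
  set k : ℕ := 2 * d with hk
  set M : ℕ := 4 * (2 * k) ^ (d - 1) * d.factorial with hM
  have hMpos : 0 < M := by
    have h2 : 0 < (2 * k) ^ (d - 1) := pow_pos (by omega) _
    have h1 := Nat.factorial_pos d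
    positivity
  set p₀ : ℕ := 2 * k * d + 2 with hp₀
  obtain ⟨θ, hθ, hcount⟩ := primes_one k (by omega) p₀
  set P : ℕ → Prop := fun p => p.Prime ∧ p₀ ≤ p ∧ k ∣ p - 1 with hP
  set κ : ℝ := 1 / (M : ℕ) with hκ
  have hκ0 : 0 < κ := by positivity
  obtain ⟨A, δ, hA, hδ, H₁, hmain⟩ := sieve_union_w (Fin d) (Fin d) P κ θ 1 d hκ0 hθ le_rfl hcount
    (fun p hp => hp.1) (fun s => ∏ i, s i)
    (fun s X hX h => by
      push_cast
      rw [Finset.abs_prod, one_mul]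
      calc ∏ i, |(s i : ℝ)| ≤ ∏ _i : Fin d, X :=
            Finset.prod_le_prod (fun i _ => abs_nonneg _) fun i _ => h i
        _ = X ^ d := by rw [Finset.prod_const, Finset.card_univ, Fintype.card_fin])
    (fun s p => {c | GoodF (p := p) (fun i => (s i : ZMod p)) (fun i => c (Fin.rev i))})
    (by
      intro s p hp hps
      have : Fact p.Prime := ⟨hp.1⟩
      have hT : k * ((p - 1) / k) = p - 1 := Nat.mul_div_cancel' hp.2.2
      have ha : ∀ i, ((s i : ℤ) : ZMod p) ≠ 0 := by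
        intro i h0
        apply hps
        rw [ZMod.intCast_zmod_eq_zero_iff_dvd] at h0
        exact h0.trans (Finset.dvd_prod_of_mem s (Finset.mem_univ i))
      have h1 := card_goodF p d k ((p - 1) / k) hd hk hT hp.2.1 (fun i => (s i : ZMod p)) ha
      have h2 : Nat.card {c : Fin d → ZMod p |
          GoodF (p := p) (fun i => (s i : ZMod p)) (fun i => c (Fin.rev i))} =
          ((univ : Finset (Fin d → ZMod p)).filter
            (fun c => GoodF (fun i => (s i : ZMod p)) c)).card := by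
        rw [← Fintype.card_subtype, ← Nat.card_eq_fintype_card]
        apply Nat.card_congr
        exact
          { toFun := fun c => ⟨fun i => c.1 (Fin.rev i), c.2⟩
            invFun := fun c => ⟨fun i => c.1 (Fin.rev i), by
              have := c.2
              simp only [Set.mem_ofPred_eq, Fin.rev_rev]
              exact this⟩
            left_inv := fun c => by
              apply Subtype.ext
              funext i
              simp
            right_inv := fun c => by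
              apply Subtype.ext
              funext i
              simp }
      have h3 : Fintype.card (Fin d) = d := by simp
      rw [h2, h3, hκ, one_div, inv_mul_le_iff₀ (by positivity)]
      exact_mod_cast h1)
  refine ⟨A, δ, hA, hδ, H₁, fun H hH S x hw => ?_⟩
  refine le_trans ?_ (hmain H hH S x hw)
  apply Nat.cast_le.2
  apply Finset.card_le_card
  intro n hn
  rw [Finset.mem_filter] at hn ⊢
  refine ⟨hn.1, ?_⟩
  have h := hn.2
  unfold EasyF at h
  push Not at h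
  obtain ⟨a, u, ha, haX, hu, hno⟩ := h
  refine ⟨a, haX, Finset.prod_ne_zero_iff.2 fun i _ => ha i, ?_⟩
  intro p hp _ hpA hG
  obtain ⟨m, hm⟩ := hno p hp.1 hpA
  have h1 := goodF_cert (x n) a u hu p hG m
  exact hm h1.1 h1.2

open Classical in
/-- well distributed sequences, in terms of `N` -/
theorem rec_main (d : ℕ) (hd : 1 ≤ d) : ∃ A : ℝ, 0 < A ∧ ∀ (κ : ℝ), 0 < κ → ∃ δ : ℝ, 0 < δ ∧
    ∀ (S : ℕ → Finset ℕ) (x : ℕ → Fin d → ℤ),
      (∃ N₀ : ℕ, ∀ N : ℕ, N₀ ≤ N → ∀ H : ℕ, (H : ℝ) ≤ (N : ℝ) ^ κ → Well (S N) x H) →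
      ∃ N₀ : ℕ, ∀ N : ℕ, N₀ ≤ N →
        (((S N).filter fun n => ¬ EasyF d ((N : ℝ) ^ δ) (Real.log N ^ A) (x n)).card : ℝ) ≤
          (N : ℝ) ^ (-δ) * (S N).card := by
  obtain ⟨A, δ, hA, hδ, H₀, h⟩ := rec_sieve d hd
  refine ⟨A, hA, fun κ hκ => ?_⟩
  set κ₁ : ℝ := min κ 1 with hκ₁
  have hκ₁0 : 0 < κ₁ := lt_min hκ one_pos
  refine ⟨κ₁ / 2 * δ, by positivity, fun S x hw => ?_⟩
  obtain ⟨N₁, hN₁⟩ := hw
  have hev : ∀ᶠ N : ℕ in atTop, (H₀ : ℝ) + 3 ≤ (N : ℝ) ^ (κ₁ / 2) := by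
    have h1 : Tendsto (fun N : ℕ => (N : ℝ) ^ (κ₁ / 2)) atTop atTop :=
      (tendsto_rpow_atTop (by positivity)).comp tendsto_natCast_atTop_atTop
    exact h1.eventually_ge_atTop _
  obtain ⟨N₂, hN₂⟩ := eventually_atTop.mp hev
  refine ⟨max N₁ (max N₂ 1), fun N hN => ?_⟩
  have hNN1 : N₁ ≤ N := (le_max_left _ _).trans hN
  have hNN2 : N₂ ≤ N := (le_max_left _ _).trans ((le_max_right _ _).trans hN)
  have hN1 : 1 ≤ N := (le_max_right _ _).trans ((le_max_right _ _).trans hN)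
  have hNr : (1 : ℝ) ≤ N := by exact_mod_cast hN1
  have hN0 : (0 : ℝ) < N := by linarith
  set y : ℝ := (N : ℝ) ^ (κ₁ / 2) with hy
  have hyy : (N : ℝ) ^ κ₁ = y * y := by
    rw [hy, ← Real.rpow_add hN0]; congr 1; ring
  have hy3 : (H₀ : ℝ) + 3 ≤ y := hN₂ N hNN2
  have hH0r : (0 : ℝ) ≤ H₀ := Nat.cast_nonneg _
  set H : ℕ := ⌊(N : ℝ) ^ κ₁⌋₊ with hH
  have hHle : (H : ℝ) ≤ (N : ℝ) ^ κ₁ := Nat.floor_le (by positivity)
  have hHge : y ≤ (H : ℝ) := by
    have h1 : (N : ℝ) ^ κ₁ < H + 1 := Nat.lt_floor_add_one _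
    rw [hyy] at h1
    nlinarith
  have hHH₀ : H₀ ≤ H := by
    have : (H₀ : ℝ) ≤ H := by linarith
    exact_mod_cast this
  have hHκ : (H : ℝ) ≤ (N : ℝ) ^ κ :=
    hHle.trans (Real.rpow_le_rpow_of_exponent_le hNr (min_le_left _ _))
  have hHN : (H : ℝ) ≤ N := by
    have h1 : (N : ℝ) ^ κ₁ ≤ (N : ℝ) ^ (1 : ℝ) :=
      Real.rpow_le_rpow_of_exponent_le hNr (min_le_right _ _)
    rw [Real.rpow_one] at h1
    exact hHle.trans h1
  have hH1 : (1 : ℝ) ≤ H := by linarith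
  have hH0 : (0 : ℝ) < H := by linarith
  have hX : (N : ℝ) ^ (κ₁ / 2 * δ) ≤ (H : ℝ) ^ δ := by
    rw [Real.rpow_mul hN0.le]
    exact Real.rpow_le_rpow (by positivity) hHge hδ.le
  have hX' : (H : ℝ) ^ (-δ) ≤ (N : ℝ) ^ (-(κ₁ / 2 * δ)) := by
    rw [Real.rpow_neg hH0.le, Real.rpow_neg hN0.le]
    exact inv_anti₀ (by positivity) hX
  have hlog : Real.log H ^ A ≤ Real.log N ^ A :=
    Real.rpow_le_rpow (Real.log_nonneg hH1) (Real.log_le_log hH0 hHN) hA.le
  have h1 := h H hHH₀ (S N) x (hN₁ N hNN1 H hHκ)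
  have h2 : (((S N).filter fun n =>
      ¬ EasyF d ((N : ℝ) ^ (κ₁ / 2 * δ)) (Real.log N ^ A) (x n)).card : ℝ) ≤
      (((S N).filter fun n => ¬ EasyF d ((H : ℝ) ^ δ) (Real.log H ^ A) (x n)).card : ℝ) := by
    apply Nat.cast_le.2
    apply Finset.card_le_card
    intro n hn
    rw [Finset.mem_filter] at hn ⊢
    refine ⟨hn.1, fun he => hn.2 ?_⟩
    intro a u ha haX hu
    obtain ⟨p, hp, hpY, hpv⟩ := he a u ha (fun i => (haX i).trans hX) hu
    exact ⟨p, hp, hpY.trans hlog, hpv⟩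
  refine h2.trans (h1.trans ?_)
  rw [mul_comm]
  exact mul_le_mul_of_nonneg_right hX' (Nat.cast_nonneg _)

end Pool.Agent.N84.TS
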