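import Pool.Agent.H684R3.Smo.Task2
import Pool.Agent.H684R3.Smo.Task3
import Pool.Agent.H684R3.Smo.Task4
import Pool.Agent.N666.TM.Mean

set_option autoImplicit false

/-!
The sieve with products of squares over blocks of primes, for well distributed sequences of integer
vectors.
-/

namespace Pool.Agent.N84.TS

open Pool.Agent.H684R3.Smo Pool.Agent.H684R3.Smo.Task3 Pool.Agent.N666.TM Pool.Agent.Y722.HS
  Pool.Agent.Y722.LS

variable {ι : Type} [Fintype ι] [DecidableEq ι] {s : Finset ℕ} {x : ℕ → ι → ℤ} {H : ℕ}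

/-- equidistribution -/
theorem t1w (hw : Well s x H) (q : ℕ) (F : (ι → ℤ) → ℝ) (hq0 : 0 < q) (hF : Per q F)
    (h1 : ∀ v, |F v| ≤ 1) (hq : q ≤ 2 * H + 1) :
    ∑ n ∈ s, F (x n) ≤ s.card * (Av q F + 1 / (2 * H + 1)) := by
  have : NeZero q := ⟨hq0.ne'⟩
  have hs : (0 : ℝ) < s.card := by exact_mod_cast hw.pos
  set f : (ι → ZMod q) → ℝ := fun z => F (fun i => ((z i).val : ℤ)) with hf
  have hfF : ∀ v : ι → ℤ, f (red q v) = F v := by
    intro v
    rw [hf]
    apply hF
    intro i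
    rw [← ZMod.intCast_zmod_eq_zero_iff_dvd]
    unfold red
    rw [Int.cast_sub, Int.cast_natCast, ZMod.natCast_zmod_val, sub_self]
  have hEM : EM q f = Av q F := by
    unfold EM Av
    rw [← sum_residues (ι := ι) q f]
    congr 1
    refine Finset.sum_congr rfl fun r _ => ?_
    exact hfF r
  have h2 := SA_near hw q hq f
  have h3 : EM q (fun c => |f c|) ≤ 1 := by
    unfold EM
    have hq' : (0 : ℝ) < (q : ℝ) ^ (Fintype.card ι) := by positivity
    rw [div_le_one hq']
    calc ∑ c : ι → ZMod q, |f c| ≤ ∑ _c : ι → ZMod q, (1 : ℝ) :=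
          Finset.sum_le_sum fun c _ => h1 _
      _ = (q : ℝ) ^ (Fintype.card ι) := by
          rw [Finset.sum_const, Finset.card_univ, Fintype.card_fun, ZMod.card]
          simp
  have h4 := (abs_le.mp h2).2
  have h5 : SA s x (fun c => f (red q c)) = (∑ n ∈ s, F (x n)) / s.card := by
    unfold SA
    congr 1
    exact Finset.sum_congr rfl fun n _ => hfF (x n)
  rw [h5, hEM] at h4
  have h6 : 1 / (2 * (H : ℝ) + 1) * EM q (fun c => |f c|) ≤ 1 / (2 * (H : ℝ) + 1) :=
    mul_le_of_le_one_right (by positivity) h3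
  have h7 : (∑ n ∈ s, F (x n)) / s.card ≤ Av q F + 1 / (2 * H + 1) := by linarith
  rw [div_le_iff₀ hs] at h7
  linarith

theorem mainw (hw : Well s x H) (t2 : T2) (m K y : ℕ)
    (e : Fin m × Fin K → ℕ) (he : Function.Injective e) (hp : ∀ z, (e z).Prime ∧ e z ≤ y)
    (X : Fin m × Fin K → (ι → ℤ) → ℝ) (hX : ∀ z, Per (e z) (X z)) (hX1 : ∀ z v, |X z v| ≤ 1)
    (hX0 : ∀ z, Av (e z) (X z) = 0) (hy : y ^ (2 * m) ≤ 2 * H + 1)
    (f : Fin m → Fin K × Fin K) :
    ∑ n ∈ s, ∏ j, (X (j, (f j).1) (x n) * X (j, (f j).2) (x n)) ≤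
      (if ∀ j, (f j).1 = (f j).2 then (s.card : ℝ) else 0) + s.card / (2 * H + 1) := by
  classical
  set q : Fin m → ℕ := fun j => qq e j (f j) with hq
  set F : Fin m → (ι → ℤ) → ℝ := fun j v => X (j, (f j).1) v * X (j, (f j).2) v with hF
  have hqpos : ∀ j, 0 < q j := by
    intro j
    simp only [hq, qq]
    split_ifs
    · exact (hp _).1.pos
    · exact Nat.mul_pos (hp _).1.pos (hp _).1.pos
  have hprime_cop : ∀ z z', z ≠ z' → Nat.Coprime (e z) (e z') := fun z z' hz =>
    (Nat.coprime_primes (hp z).1 (hp z').1).mpr fun h => hz (he h)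
  have hcop : ∀ i j, i ≠ j → Nat.Coprime (q i) (q j) := by
    intro i j hij
    have hc : ∀ a a', Nat.Coprime (e (i, a)) (e (j, a')) := fun a a' =>
      hprime_cop _ _ fun h => hij (congrArg Prod.fst h)
    simp only [hq, qq]
    split_ifs
    · exact hc _ _
    · exact Nat.Coprime.mul_right (hc _ _) (hc _ _)
    · exact Nat.Coprime.mul_left (hc _ _) (hc _ _)
    · exact Nat.Coprime.mul_left (Nat.Coprime.mul_right (hc _ _) (hc _ _))
        (Nat.Coprime.mul_right (hc _ _) (hc _ _))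
  have hqy : ∀ j, q j ≤ y ^ 2 := by
    intro j
    simp only [hq, qq]
    have hy1 : 1 ≤ y := (hp (j, (f j).1)).1.one_le.trans (hp (j, (f j).1)).2
    split_ifs
    · exact (hp _).2.trans (Nat.le_self_pow two_ne_zero y)
    · rw [pow_two]; exact Nat.mul_le_mul (hp _).2 (hp _).2
  have hd1 : ∀ j, e (j, (f j).1) ∣ q j := by
    intro j
    simp only [hq, qq]
    split_ifs
    · exact dvd_rfl
    · exact dvd_mul_right _ _
  have hd2 : ∀ j, e (j, (f j).2) ∣ q j := by
    intro j
    simp only [hq, qq]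
    split_ifs with h
    · rw [h]
    · exact dvd_mul_left _ _
  have hPer : ∀ j, Per (q j) (F j) := fun j =>
    Per.mul (Per.of_dvd (hX _) (hd1 j)) (Per.of_dvd (hX _) (hd2 j))
  have hF1 : ∀ j v, |F j v| ≤ 1 := by
    intro j v
    simp only [hF, abs_mul]
    exact mul_le_one₀ (hX1 _ _) (abs_nonneg _) (hX1 _ _)
  have hprodle : ∏ j, q j ≤ y ^ (2 * m) := by
    calc ∏ j, q j ≤ ∏ _j : Fin m, y ^ 2 := Finset.prod_le_prod' fun j _ => hqy j
      _ = y ^ (2 * m) := by simp [pow_mul]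
  have hprodpos : 0 < ∏ j, q j := Finset.prod_pos fun j _ => hqpos j
  have hPerAll : Per (∏ j, q j) (fun v => ∏ j, F j v) := by
    intro v w hv
    exact Finset.prod_congr rfl fun j _ =>
      (Per.of_dvd (hPer j) (Finset.dvd_prod_of_mem q (Finset.mem_univ j))) v w hv
  have hAll1 : ∀ v, |∏ j, F j v| ≤ 1 := by
    intro v
    rw [Finset.abs_prod]
    exact Finset.prod_le_one (fun _ _ => abs_nonneg _) fun j _ => hF1 j v
  have h1 := t1w hw (∏ j, q j) (fun v => ∏ j, F j v) hprodpos hPerAll hAll1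
    (hprodle.trans hy)
  have h2 := t2 ι (Fin m) q F hqpos hcop hPer
  have hAv : Av (∏ j, q j) (fun v => ∏ j, F j v) ≤ if ∀ j, (f j).1 = (f j).2 then 1 else 0 := by
    rw [h2]
    split_ifs with h
    · refine (le_abs_self _).trans ?_
      rw [Finset.abs_prod]
      exact Finset.prod_le_one (fun _ _ => abs_nonneg _) fun j _ => av_le (hqpos j) (hF1 j)
    · push Not at h
      obtain ⟨j, hj⟩ := h
      have : Av (q j) (F j) = 0 := by
        have h3 := t2 ι Bool (fun c => if c then e (j, (f j).1) else e (j, (f j).2))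
          (fun c => if c then X (j, (f j).1) else X (j, (f j).2)) ?_ ?_ ?_
        · rw [Fintype.prod_bool, Fintype.prod_bool] at h3
          simp only [if_true, Bool.false_eq_true, if_false, hX0, mul_zero, Fintype.prod_bool] at h3
          simp only [hq, qq, if_neg hj, hF]
          exact h3
        · intro c
          cases c
          · simpa using (hp _).1.pos
          · simpa using (hp _).1.pos
        · intro c c' hcc
          have hne : ((j, (f j).1) : Fin m × Fin K) ≠ (j, (f j).2) := fun h => hj (by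
            simpa using congrArg Prod.snd h)
          cases c <;> cases c'
          · exact absurd rfl hcc
          · simpa using hprime_cop _ _ hne.symm
          · simpa using hprime_cop _ _ hne
          · exact absurd rfl hcc
        · intro c
          cases c
          · simpa using hX (j, (f j).2)
          · simpa using hX (j, (f j).1)
      rw [Finset.prod_eq_zero (Finset.mem_univ j) this]
  have hs0 : (0 : ℝ) ≤ s.card := by positivity
  have hb3 : (s.card : ℝ) * Av (∏ j, q j) (fun v => ∏ j, F j v) ≤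
      if ∀ j, (f j).1 = (f j).2 then (s.card : ℝ) else 0 := by
    calc _ ≤ (s.card : ℝ) *
          (if ∀ j, (f j).1 = (f j).2 then (1 : ℝ) else 0) := mul_le_mul_of_nonneg_left hAv hs0
      _ = _ := by split_ifs <;> simp
  have hgoal : ∑ n ∈ s, ∏ j, (X (j, (f j).1) (x n) * X (j, (f j).2) (x n)) =
      ∑ n ∈ s, (fun v => ∏ j, F j v) (x n) := rfl
  rw [hgoal]
  refine h1.trans ?_
  rw [mul_add, mul_one_div]
  linarith

theorem t3w (hw : Well s x H) (t2 : T2) (m K y : ℕ)
    (e : Fin m × Fin K → ℕ) (he : Function.Injective e) (hp : ∀ z, (e z).Prime ∧ e z ≤ y)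
    (X : Fin m × Fin K → (ι → ℤ) → ℝ) (hX : ∀ z, Per (e z) (X z)) (hX1 : ∀ z v, |X z v| ≤ 1)
    (hX0 : ∀ z, Av (e z) (X z) = 0) (hy : y ^ (2 * m) ≤ 2 * H + 1) :
    ∑ n ∈ s, ∏ j, (∑ k, X (j, k) (x n)) ^ 2 ≤
      s.card * (K : ℝ) ^ m + (K : ℝ) ^ (2 * m) * (s.card / (2 * H + 1)) := by
  classical
  have hexp : ∀ v, ∏ j, (∑ k, X (j, k) v) ^ 2 =
      ∑ f : Fin m → Fin K × Fin K, ∏ j, (X (j, (f j).1) v * X (j, (f j).2) v) := by
    intro v
    have h1 : ∀ j : Fin m, (∑ k, X (j, k) v) ^ 2 =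
        ∑ a : Fin K × Fin K, X (j, a.1) v * X (j, a.2) v := by
      intro j
      rw [pow_two, Finset.sum_mul_sum, Fintype.sum_prod_type]
    rw [Finset.prod_congr rfl fun j _ => h1 j, Finset.prod_univ_sum, Fintype.piFinset_univ]
  rw [Finset.sum_congr rfl fun n _ => hexp (x n), Finset.sum_comm]
  refine (Finset.sum_le_sum fun f _ =>
    mainw hw t2 m K y e he hp X hX hX1 hX0 hy f).trans ?_
  rw [Finset.sum_add_distrib, ← Finset.sum_filter, Finset.sum_const, Finset.sum_const,
    Task3.diag_card, nsmul_eq_mul, nsmul_eq_mul]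
  have hc : (Finset.univ : Finset (Fin m → Fin K × Fin K)).card = K ^ (2 * m) := by
    simp [pow_mul, pow_two]
  rw [hc]
  push_cast
  rw [mul_comm ((K : ℝ) ^ m)]

open Classical in
theorem t4w (hw : Well s x H) (t2 : T2) (G : ∀ p : ℕ, Set (ι → ZMod p))
    (κ : ℝ) (hκ : 0 < κ) (m K y : ℕ) (e : Fin m × Fin K → ℕ) (he : Function.Injective e)
    (hG : ∀ z, (e z).Prime ∧ e z ≤ y ∧
      κ * (e z : ℝ) ^ (Fintype.card ι) ≤ (Nat.card (G (e z)) : ℝ))
    (hy : y ^ (2 * m) ≤ 2 * H + 1) :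
    ((s.filter fun n => ∀ z, red (e z) (x n) ∉ G (e z)).card : ℝ) * (κ * K) ^ (2 * m) ≤
      s.card * (K : ℝ) ^ m + (K : ℝ) ^ (2 * m) * (s.card / (2 * H + 1)) := by
  set D := Fintype.card ι with hD
  let γ : Fin m × Fin K → ℝ := fun z => (Nat.card (G (e z)) : ℝ) / (e z : ℝ) ^ D
  let X : Fin m × Fin K → (ι → ℤ) → ℝ := fun z v =>
    (if (fun i => (v i : ZMod (e z))) ∈ G (e z) then 1 else 0) - γ z
  have hpos : ∀ x, (0 : ℝ) < (e x : ℝ) ^ D := fun x => by
    have := (hG x).1.pos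
    positivity
  have hγ0 : ∀ x, κ ≤ γ x := fun x => by
    change κ ≤ (Nat.card (G (e x)) : ℝ) / (e x : ℝ) ^ D
    rw [le_div_iff₀ (hpos x)]
    exact (hG x).2.2
  have hγ1 : ∀ x, γ x ≤ 1 := fun x => by
    change (Nat.card (G (e x)) : ℝ) / (e x : ℝ) ^ D ≤ 1
    rw [div_le_one (hpos x)]
    have : NeZero (e x) := ⟨(hG x).1.ne_zero⟩
    have h1 : Nat.card (G (e x)) ≤ Nat.card (ι → ZMod (e x)) :=
      Finite.card_subtype_le _
    rw [Nat.card_fun, Nat.card_zmod, Nat.card_eq_fintype_card (α := ι)] at h1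
    exact_mod_cast h1
  have hPer : ∀ x, Per (e x) (X x) := by
    intro x v w hvw
    have h1 : (fun i => (v i : ZMod (e x))) = fun i => (w i : ZMod (e x)) := by
      funext i
      have h2 := hvw i
      rw [← ZMod.intCast_zmod_eq_zero_iff_dvd] at h2
      rw [Int.cast_sub, sub_eq_zero] at h2
      exact h2
    change (if (fun i => (v i : ZMod (e x))) ∈ G (e x) then (1 : ℝ) else 0) - γ x =
      (if (fun i => (w i : ZMod (e x))) ∈ G (e x) then (1 : ℝ) else 0) - γ x
    rw [h1]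
  have habs : ∀ x v, |X x v| ≤ 1 := by
    intro x v
    change |(if (fun i => (v i : ZMod (e x))) ∈ G (e x) then (1 : ℝ) else 0) - γ x| ≤ 1
    have h0 := hγ0 x
    have h1 := hγ1 x
    rw [abs_le]
    split_ifs <;> constructor <;> linarith
  have hAv : ∀ x, Av (e x) (X x) = 0 := by
    intro x
    have : NeZero (e x) := ⟨(hG x).1.ne_zero⟩
    rw [Av, div_eq_zero_iff]
    left
    have h1 := sum_residues (ι := ι) (e x)
      (fun z => (if z ∈ G (e x) then (1 : ℝ) else 0) - γ x)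
    have h2 : ∑ r ∈ Fintype.piFinset (fun _ : ι => Finset.Ico (0 : ℤ) (e x)), X x r =
        ∑ z : ι → ZMod (e x), ((if z ∈ G (e x) then (1 : ℝ) else 0) - γ x) := h1
    rw [h2, Finset.sum_sub_distrib, Finset.sum_const, Finset.card_univ, Fintype.card_fun,
      ZMod.card, Finset.sum_boole]
    have h3 : ((Finset.univ.filter fun z : ι → ZMod (e x) => z ∈ G (e x)).card : ℝ) =
        (Nat.card (G (e x)) : ℝ) := by
      rw [Nat.card_eq_fintype_card, ← Set.toFinset_card]
      congr 2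
      ext z
      simp
    rw [h3, nsmul_eq_mul]
    change (Nat.card (G (e x)) : ℝ) -
      ((e x ^ Fintype.card ι : ℕ) : ℝ) * ((Nat.card (G (e x)) : ℝ) / (e x : ℝ) ^ D) = 0
    rw [← hD, Nat.cast_pow, mul_div_cancel₀ _ (hpos x).ne', sub_self]
  refine le_trans ?_ (t3w hw t2 m K y e he (fun z => ⟨(hG z).1, (hG z).2.1⟩) X hPer habs hAv hy)
  rw [← nsmul_eq_mul]
  refine le_trans (Finset.card_nsmul_le_sum _
    (fun n => ∏ j, (∑ k, X (j, k) (x n)) ^ 2) _ ?_)
    (Finset.sum_le_sum_of_subset_of_nonneg (Finset.filter_subset _ _) ?_)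
  · intro n hn
    have hv2 := (Finset.mem_filter.1 hn).2
    have h1 : ∀ j : Fin m, (κ * K) ^ 2 ≤ (∑ k, X (j, k) (x n)) ^ 2 := by
      intro j
      have h2 : ∑ k, X (j, k) (x n) = - ∑ k, γ (j, k) := by
        rw [← Finset.sum_neg_distrib]
        refine Finset.sum_congr rfl fun k _ => ?_
        change (if (fun i => (x n i : ZMod (e (j, k)))) ∈ G (e (j, k)) then (1 : ℝ) else 0) -
          γ (j, k) = - γ (j, k)
        have hv3 : (fun i => (x n i : ZMod (e (j, k)))) ∉ G (e (j, k)) := hv2 (j, k)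
        rw [if_neg hv3, zero_sub]
      rw [h2, neg_sq]
      have h3 : κ * K ≤ ∑ k, γ (j, k) := by
        have h4 : ∑ _k : Fin K, κ ≤ ∑ k, γ (j, k) := Finset.sum_le_sum fun k _ => hγ0 (j, k)
        rw [Finset.sum_const, Finset.card_univ, Fintype.card_fin, nsmul_eq_mul] at h4
        linarith
      exact pow_le_pow_left₀ (by positivity) h3 2
    calc (κ * K) ^ (2 * m) = ∏ _j : Fin m, (κ * K) ^ 2 := by
          rw [Finset.prod_const, Finset.card_univ, Fintype.card_fin, ← pow_mul]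
      _ ≤ ∏ j, (∑ k, X (j, k) (x n)) ^ 2 :=
          Finset.prod_le_prod (fun j _ => by positivity) fun j _ => h1 j
  · intro n _ _
    exact Finset.prod_nonneg fun j _ => sq_nonneg _

end Pool.Agent.N84.TS
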