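import Pool.Agent.N84.TS.Sieve
import Pool.Agent.R851.SK.Sv

set_option autoImplicit false

/-!
The sieve for well distributed sequences with finitely many excluded primes, and a union bound over
all small parameters.
-/

namespace Pool.Agent.N84.TS

open Filter Pool.Agent.TH838.SK Pool.Agent.H684R3.Smo Pool.Agent.H884R2.Sko
  Pool.Agent.H692R2.USS Pool.Agent.N666.TM Pool.Agent.Y722.HS Pool.Agent.R851.SK

open Classical in
/-- The asymptotic form of the counting bound, with at most `L log H` excluded primes. -/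
theorem t5w (ht2 : T2) (ι : Type) [Fintype ι] [DecidableEq ι] (P : ℕ → Prop) (κ θ L : ℝ)
    (hκ : 0 < κ) (hθ : 0 < θ) (hL : 0 ≤ L)
    (hN : ∃ y₀ : ℕ, ∀ y : ℕ, y₀ ≤ y → (y : ℝ) ^ θ ≤ (Nat.card {p : ℕ // P p ∧ p ≤ y} : ℝ)) :
    ∃ δ : ℝ, 0 < δ ∧ ∃ H₀ : ℕ, ∀ H : ℕ, H₀ ≤ H → ∀ E : Finset ℕ,
      (E.card : ℝ) ≤ L * Real.log H → ∀ G : ∀ p : ℕ, Set (ι → ZMod p),
      (∀ p, P p → p ∉ E →
        p.Prime ∧ κ * (p : ℝ) ^ (Fintype.card ι) ≤ (Nat.card (G p) : ℝ)) →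
      ∀ (s : Finset ℕ) (x : ℕ → ι → ℤ), Well s x H →
      ((s.filter fun n => ∀ p, P p → p ∉ E →
        (p : ℝ) ≤ Real.log H ^ (2 / θ) → red p (x n) ∉ G p).card : ℝ) ≤
        s.card * (H : ℝ) ^ (-δ) := by
  obtain ⟨y₀, hy₀⟩ := hN
  set A : ℝ := 2 / θ with hAdef
  have hA : 0 < A := by positivity
  set θ' : ℝ := 3 / 4 * θ with hθ'
  have hθ'0 : 0 < θ' := by positivity
  set ε : ℝ := 1 / 4 with hε
  have hε0 : 0 < ε := by rw [hε]; norm_num
  have hAε : A * θ' = 1 + 2 * ε := by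
    rw [hAdef, hθ', hε]
    field_simp
    norm_num
  set η : ℝ := 1 / (16 * A) with hη
  have hη0 : 0 < η := by positivity
  set δ : ℝ := min (ε * η / 8) (1 / 2) with hδ
  have hδ0 : 0 < δ := lt_min (by positivity) (by norm_num)
  have hlogH : Tendsto (fun H : ℕ => Real.log (H : ℝ)) atTop atTop :=
    Real.tendsto_log_atTop.comp tendsto_natCast_atTop_atTop
  have hev := hlogH.eventually (t5_ev 0 κ θ' A ε η
    (((1 : ℕ) : ℝ) * 2 ^ 1 * 2) hA hε0 hη0)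
  set y₂ : ℕ := max y₀ ⌈(2 : ℝ) ^ (4 / θ)⌉₊ with hy₂
  have hev2 : ∀ᶠ t : ℝ in atTop, 4 * (2 * L) ^ (1 / θ) ≤ t ^ (1 / θ) :=
    (tendsto_rpow_atTop (by positivity)).eventually_ge_atTop _
  have hev3 : ∀ᶠ t : ℝ in atTop, 4 * ((y₂ : ℝ) + 2) ≤ t ^ A :=
    (tendsto_rpow_atTop hA).eventually_ge_atTop _
  obtain ⟨H₀, hH₀⟩ := eventually_atTop.1 (hev.and ((hlogH.eventually hev2).and
    (hlogH.eventually hev3)))
  refine ⟨δ, hδ0, H₀, fun H hH E hE G hP s x hw => ?_⟩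
  obtain ⟨⟨c1, -, c3, c4, c5, c6, c7, c8, c9⟩, d1, d2⟩ := hH₀ H hH
  have ht0 : 0 < Real.log (H : ℝ) := lt_of_lt_of_le (Real.exp_pos 1) c1
  have hHpos : (0 : ℝ) < H := by
    rcases Nat.eq_zero_or_pos H with h | h
    · subst h; simp at ht0
    · exact_mod_cast h
  set t : ℝ := Real.log (H : ℝ) with ht
  set y₁ : ℕ := ⌈(2 * L * t) ^ (1 / θ)⌉₊ + y₂ with hy₁
  have c2 : 2 * ((y₁ : ℝ) + 1) ≤ t ^ A := by
    have h1 : (⌈(2 * L * t) ^ (1 / θ)⌉₊ : ℝ) ≤ (2 * L * t) ^ (1 / θ) + 1 :=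
      (Nat.ceil_lt_add_one (by positivity)).le
    have h2 : (2 * L * t) ^ (1 / θ) = (2 * L) ^ (1 / θ) * t ^ (1 / θ) :=
      Real.mul_rpow (by positivity) ht0.le
    have h3 : t ^ A = t ^ (1 / θ) * t ^ (1 / θ) := by
      rw [← Real.rpow_add ht0]; congr 1; rw [hAdef]; ring
    have h4' : 4 * (2 * L) ^ (1 / θ) * t ^ (1 / θ) ≤ t ^ A := by
      rw [h3]
      exact mul_le_mul_of_nonneg_right d1 (by positivity)
    have h5 : (y₁ : ℝ) = (⌈(2 * L * t) ^ (1 / θ)⌉₊ : ℝ) + y₂ := by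
      rw [hy₁]; push_cast; ring
    rw [h5]
    nlinarith
  have hfinP : ∀ y : ℕ, Finite {p : ℕ // P p ∧ p ≤ y} := fun y =>
    (Set.Finite.subset (Set.finite_le_nat y) (fun p hp => hp.2) :
      ({p : ℕ | P p ∧ p ≤ y}).Finite).to_subtype
  have hfinPE : ∀ y : ℕ, Finite {p : ℕ // (P p ∧ p ∉ E) ∧ p ≤ y} := fun y =>
    (Set.Finite.subset (Set.finite_le_nat y) (fun p hp => hp.2) :
      ({p : ℕ | (P p ∧ p ∉ E) ∧ p ≤ y}).Finite).to_subtype
  have hN' : ∀ y : ℕ, y₁ ≤ y →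
      (y : ℝ) ^ θ' ≤ (Nat.card {p : ℕ // (P p ∧ p ∉ E) ∧ p ≤ y} : ℝ) := by
    intro y hy
    have hy0 : y₀ ≤ y := (le_max_left _ _).trans ((Nat.le_add_left _ _).trans hy)
    have hy2 : (2 : ℝ) ^ (4 / θ) ≤ y := by
      have h1 : ⌈(2 : ℝ) ^ (4 / θ)⌉₊ ≤ y :=
        (le_max_right y₀ _).trans ((Nat.le_add_left _ _).trans hy)
      exact (Nat.le_ceil _).trans (by exact_mod_cast h1)
    have hy3 : (2 * L * t) ^ (1 / θ) ≤ y := by
      have h1 : ⌈(2 * L * t) ^ (1 / θ)⌉₊ ≤ y := (Nat.le_add_right _ _).trans hy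
      exact (Nat.le_ceil _).trans (by exact_mod_cast h1)
    have hyp : (0 : ℝ) < y := lt_of_lt_of_le (by positivity) hy2
    have h1 := hy₀ y hy0
    have h2 : Nat.card {p : ℕ // P p ∧ p ≤ y} ≤
        Nat.card {p : ℕ // (P p ∧ p ∉ E) ∧ p ≤ y} + E.card := by
      classical
      have hf1 := hfinP y
      have hf2 := hfinPE y
      have e : Nat.card ({p : ℕ // (P p ∧ p ∉ E) ∧ p ≤ y} ⊕ E) =
          Nat.card {p : ℕ // (P p ∧ p ∉ E) ∧ p ≤ y} + E.card := by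
        rw [Nat.card_sum, Nat.card_eq_fintype_card (α := E), Fintype.card_coe]
      rw [← e]
      apply Nat.card_le_card_of_injective (fun p : {p : ℕ // P p ∧ p ≤ y} =>
        if h : p.1 ∈ E then Sum.inr (⟨p.1, h⟩ : E) else
          Sum.inl (⟨p.1, ⟨p.2.1, h⟩, p.2.2⟩ : {p : ℕ // (P p ∧ p ∉ E) ∧ p ≤ y}))
      intro x x' h
      apply Subtype.ext
      simp only at h
      split_ifs at h with h4 h5 h5
      · simpa using h
      · simpa using h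
    have h3 : (Nat.card {p : ℕ // P p ∧ p ≤ y} : ℝ) ≤
        (Nat.card {p : ℕ // (P p ∧ p ∉ E) ∧ p ≤ y} : ℝ) + E.card := by exact_mod_cast h2
    have h5 : 2 * L * t ≤ (y : ℝ) ^ θ := by
      have h6 := Real.rpow_le_rpow (by positivity) hy3 hθ.le
      rwa [← Real.rpow_mul (by positivity), one_div, inv_mul_cancel₀ hθ.ne', Real.rpow_one] at h6
    have h7 : 2 ≤ (y : ℝ) ^ (θ / 4) := by
      have h6 := Real.rpow_le_rpow (by positivity) hy2 (by positivity : (0 : ℝ) ≤ θ / 4)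
      rw [← Real.rpow_mul (by norm_num)] at h6
      have h8 : 4 / θ * (θ / 4) = 1 := by field_simp
      rwa [h8, Real.rpow_one] at h6
    have h9 : (y : ℝ) ^ θ = (y : ℝ) ^ θ' * (y : ℝ) ^ (θ / 4) := by
      rw [← Real.rpow_add hyp]; congr 1; rw [hθ']; ring
    have h10 : 0 < (y : ℝ) ^ θ' := Real.rpow_pos_of_pos hyp _
    nlinarith
  obtain ⟨m, K, y, hyt, hmK, hK, p1, p2, p3⟩ := t5_param y₁ κ θ' A ε η δ t
    (fun y => Nat.card {p : ℕ // (P p ∧ p ∉ E) ∧ p ≤ y}) hκ hθ'0 hA hε0 hAε hη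
    (min_le_left _ _) hδ0 hN' c1 c2 c3 c4 c5 c6 c7 c8
  have hfin := hfinPE y
  obtain ⟨f⟩ : Nonempty (Fin m × Fin K ↪ {p : ℕ // (P p ∧ p ∉ E) ∧ p ≤ y}) := by
    have := Fintype.ofFinite {p : ℕ // (P p ∧ p ∉ E) ∧ p ≤ y}
    refine Function.Embedding.nonempty_of_card_le ?_
    rw [Fintype.card_prod, Fintype.card_fin, Fintype.card_fin, ← Nat.card_eq_fintype_card]
    exact hmK
  have hexp : Real.exp t = H := Real.exp_log hHpos
  have hyH : y ^ (2 * m) ≤ 2 * H + 1 := by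
    have h1 : (y : ℝ) ^ (2 * m) ≤ 2 * H + 1 := by
      refine le_trans p1 ?_
      have h2 : Real.exp (t / 8) ≤ Real.exp t := Real.exp_le_exp.2 (by linarith)
      rw [hexp] at h2
      linarith
    exact_mod_cast h1
  have hmain := t4w hw ht2 G κ hκ m K y
    (fun z => ((f z : {p : ℕ // (P p ∧ p ∉ E) ∧ p ≤ y}) : ℕ))
    (Subtype.val_injective.comp f.injective)
    (fun z => ⟨(hP _ (f z).2.1.1 (f z).2.1.2).1, (f z).2.2, (hP _ (f z).2.1.1 (f z).2.1.2).2⟩)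
    hyH
  have hs : (0 : ℝ) < s.card := by exact_mod_cast hw.pos
  have hcard : ((s.filter fun n => ∀ p, P p → p ∉ E → (p : ℝ) ≤ t ^ A →
      red p (x n) ∉ G p).card : ℝ) ≤
      ((s.filter fun n => ∀ z : Fin m × Fin K,
        red ((f z : {p : ℕ // (P p ∧ p ∉ E) ∧ p ≤ y}) : ℕ) (x n) ∉
        G ((f z : {p : ℕ // (P p ∧ p ∉ E) ∧ p ≤ y}) : ℕ)).card : ℝ) := by
    apply Nat.cast_le.2
    apply Finset.card_le_card
    intro n hn
    rw [Finset.mem_filter] at hn ⊢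
    exact ⟨hn.1, fun z => hn.2 _ (f z).2.1.1 (f z).2.1.2
      (le_trans (by exact_mod_cast (f z).2.2) hyt)⟩
  set cnt : ℝ := ((s.filter fun n => ∀ p, P p → p ∉ E → (p : ℝ) ≤ t ^ A →
      red p (x n) ∉ G p).card : ℝ) with hcnt
  have hS : (0 : ℝ) < 2 * (H : ℝ) + 1 := by positivity
  have hy1 : (1 : ℝ) ≤ (y : ℝ) ^ (2 * m) := by
    have hy0 : 1 ≤ y := by
      by_contra h0
      have h1 : y = 0 := by omega
      have hm0 : m = 0 := by
        by_contra hm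
        have hmKpos : 0 < m * K := Nat.mul_pos (Nat.pos_of_ne_zero hm) hK
        have h2 : (0 : ℕ) < Nat.card {p : ℕ // (P p ∧ p ∉ E) ∧ p ≤ y} := lt_of_lt_of_le hmKpos hmK
        obtain ⟨q⟩ : Nonempty {p : ℕ // (P p ∧ p ∉ E) ∧ p ≤ y} := (Nat.card_pos_iff.mp h2).1
        have h3 := (hP _ q.2.1.1 q.2.1.2).1.pos
        have h4 := q.2.2
        omega
      subst hm0
      have h5 : (2 : ℝ) * Real.exp (δ * t) ≤ 1 := by simpa using p3
      have h6 : (1 : ℝ) ≤ Real.exp (δ * t) := Real.one_le_exp (by positivity)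
      linarith
    exact one_le_pow₀ (by exact_mod_cast hy0)
  have key : cnt * (2 * (H : ℝ) + 1) / s.card ≤ (2 * (H : ℝ) + 1) ^ 1 * (H : ℝ) ^ (-δ) := by
    refine t5_final 1 m K y _ (2 * (H : ℝ) + 1) κ δ t H hκ hK
      (min_le_right _ _) ht0 hexp.symm (by linarith) (by exact_mod_cast c9) p1 p2 p3 ?_
    have h1 : cnt * (κ * K) ^ (2 * m) ≤
        s.card * (K : ℝ) ^ m + (K : ℝ) ^ (2 * m) * (s.card / (2 * H + 1)) :=
      le_trans (mul_le_mul_of_nonneg_right hcard (by positivity)) hmain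
    have h2 : cnt * (2 * (H : ℝ) + 1) / s.card * (κ * K) ^ (2 * m) =
        (cnt * (κ * K) ^ (2 * m)) * ((2 * (H : ℝ) + 1) / s.card) := by ring
    rw [h2]
    have h3 : (cnt * (κ * K) ^ (2 * m)) * ((2 * (H : ℝ) + 1) / s.card) ≤
        (s.card * (K : ℝ) ^ m + (K : ℝ) ^ (2 * m) * (s.card / (2 * H + 1))) *
          ((2 * (H : ℝ) + 1) / s.card) := mul_le_mul_of_nonneg_right h1 (by positivity)
    refine h3.trans ?_
    have h4 : (s.card * (K : ℝ) ^ m + (K : ℝ) ^ (2 * m) * (s.card / (2 * (H : ℝ) + 1))) *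
          ((2 * (H : ℝ) + 1) / s.card) = (2 * (H : ℝ) + 1) ^ 1 * (K : ℝ) ^ m +
            (K : ℝ) ^ (2 * m) * 1 := by
      field_simp
    rw [h4]
    have h5 : (K : ℝ) ^ (2 * m) * 1 ≤ (K : ℝ) ^ (2 * m) * (((1 : ℕ) : ℝ) * 2 ^ 1 * (y : ℝ) ^ (2 * m) *
        (2 * (H : ℝ) + 1) ^ (1 - 1)) := by
      apply mul_le_mul_of_nonneg_left _ (by positivity)
      rw [Nat.sub_self, pow_zero, mul_one, Nat.cast_one, one_mul, pow_one]
      linarith
    linarith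
  rw [pow_one, div_le_iff₀ hs] at key
  have h6 : cnt * (2 * (H : ℝ) + 1) ≤ (s.card * (H : ℝ) ^ (-δ)) * (2 * (H : ℝ) + 1) := by
    calc _ ≤ _ := key
      _ = _ := by ring
  exact le_of_mul_le_mul_right h6 hS

open Classical in
/-- The sieve with a union bound over all small parameters `s`; the primes dividing `D s` are
excluded. -/
theorem sieve_union_w (ι J : Type) [Fintype ι] [DecidableEq ι] [Fintype J] [DecidableEq J]
    (P : ℕ → Prop) (κ θ C : ℝ) (e : ℕ) (hκ : 0 < κ) (hθ : 0 < θ) (hC : 1 ≤ C)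
    (hN : ∃ y₀ : ℕ, ∀ y : ℕ, y₀ ≤ y → (y : ℝ) ^ θ ≤ (Nat.card {p : ℕ // P p ∧ p ≤ y} : ℝ))
    (hP : ∀ p, P p → p.Prime)
    (D : (J → ℤ) → ℤ)
    (hD : ∀ s (X : ℝ), 1 ≤ X → (∀ j, |(s j : ℝ)| ≤ X) → |(D s : ℝ)| ≤ C * X ^ e)
    (G : (J → ℤ) → ∀ p : ℕ, Set (ι → ZMod p))
    (hG : ∀ s, ∀ p, P p → ¬ (p : ℤ) ∣ D s →
      κ * (p : ℝ) ^ Fintype.card ι ≤ (Nat.card (G s p) : ℝ)) :
    ∃ A δ : ℝ, 0 < A ∧ 0 < δ ∧ ∃ H₀ : ℕ, ∀ H : ℕ, H₀ ≤ H → ∀ (S : Finset ℕ) (x : ℕ → ι → ℤ),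
      Well S x H →
      ((S.filter fun n => ∃ s : J → ℤ, (∀ j, |(s j : ℝ)| ≤ (H : ℝ) ^ δ) ∧
        D s ≠ 0 ∧ ∀ p, P p → ¬ (p : ℤ) ∣ D s → (p : ℝ) ≤ Real.log H ^ A →
          red p (x n) ∉ G s p).card : ℝ) ≤ S.card * (H : ℝ) ^ (-δ) := by
  set L : ℝ := 2 * (Real.log C + e) with hLdef
  have hL : 0 ≤ L := by
    have := Real.log_nonneg hC
    positivity
  obtain ⟨δ₀, hδ₀, H₁, hmain⟩ := t5w t2 ι P κ θ L hκ hθ hL hN
  set N : ℕ := Fintype.card J with hNdef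
  set δ₁ : ℝ := min δ₀ 1 with hδ₁
  have hδ₁0 : 0 < δ₁ := lt_min hδ₀ one_pos
  set δ : ℝ := δ₁ / (2 * (N + 1)) with hδ
  have hδ0 : 0 < δ := by positivity
  have hδle : δ ≤ 1 := by
    rw [hδ, div_le_one (by positivity)]
    have : δ₁ ≤ 1 := min_le_right _ _
    have h2 : (0 : ℝ) ≤ N := Nat.cast_nonneg _
    linarith
  have hev : ∀ᶠ H : ℕ in Filter.atTop, (3 : ℝ) ^ N ≤ (H : ℝ) ^ (δ₁ / 2) := by
    have : Filter.Tendsto (fun y : ℕ => (y : ℝ) ^ (δ₁ / 2)) Filter.atTop Filter.atTop :=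
      (tendsto_rpow_atTop (by positivity)).comp tendsto_natCast_atTop_atTop
    exact this.eventually_ge_atTop _
  obtain ⟨H₂, hH₂⟩ := Filter.eventually_atTop.1 hev
  refine ⟨2 / θ, δ, by positivity, hδ0, max 3 (max H₁ H₂), fun H hH S x hw => ?_⟩
  have hH1 : 3 ≤ H := (le_max_left _ _).trans hH
  have hHH₁ : H₁ ≤ H := (le_max_left _ _).trans ((le_max_right _ _).trans hH)
  have hHH₂ : H₂ ≤ H := (le_max_right _ _).trans ((le_max_right _ _).trans hH)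
  have hHr3 : (3 : ℝ) ≤ H := by exact_mod_cast hH1
  have hHr : (1 : ℝ) ≤ H := by linarith
  have hHr0 : (0 : ℝ) < H := by linarith
  have hlog1 : 1 ≤ Real.log H := by
    rw [Real.le_log_iff_exp_le hHr0]
    have := Real.exp_one_lt_d9
    linarith
  set X : ℝ := (H : ℝ) ^ δ with hX
  have hX1 : 1 ≤ X := Real.one_le_rpow hHr hδ0.le
  set W : Finset (J → ℤ) := (Fintype.piFinset fun _ : J => Finset.Icc (-⌊X⌋) ⌊X⌋).filter
    (fun s => D s ≠ 0) with hW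
  have hWmem : ∀ s : J → ℤ, s ∈ W ↔ (∀ j, |(s j : ℝ)| ≤ X) ∧ D s ≠ 0 := by
    intro s
    rw [hW, Finset.mem_filter, Fintype.mem_piFinset]
    apply and_congr_left'
    refine forall_congr' fun j => ?_
    rw [Finset.mem_Icc, abs_le, Int.le_floor]
    apply and_congr_left'
    constructor
    · intro h1
      have h2 : ((-⌊X⌋ : ℤ) : ℝ) ≤ (s j : ℝ) := by exact_mod_cast h1
      push_cast at h2
      have := Int.floor_le X
      linarith
    · intro h1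
      have h2 : -(s j) ≤ ⌊X⌋ := by
        rw [Int.le_floor]
        push_cast
        linarith
      linarith
  let B : (J → ℤ) → Finset ℕ := fun s => S.filter
    (fun n => ∀ p, P p → ¬ (p : ℤ) ∣ D s → (p : ℝ) ≤ Real.log H ^ (2 / θ) →
      red p (x n) ∉ G s p)
  have hB : ∀ s ∈ W, ((B s).card : ℝ) ≤ S.card * (H : ℝ) ^ (-δ₁) := by
    intro s hs
    rw [hWmem] at hs
    have hE : ((D s).natAbs.primeFactors.card : ℝ) ≤ L * Real.log H := by
      have h1 := card_pf (D s) hs.2 (C * X ^ e) (hD s X hX1 hs.1)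
      rw [Real.log_mul (by positivity) (by positivity), Real.log_pow] at h1
      have h2 : Real.log X = δ * Real.log H := by rw [hX, Real.log_rpow hHr0]
      rw [h2] at h1
      have h3 : Real.log C ≤ Real.log C * Real.log H :=
        le_mul_of_one_le_right (Real.log_nonneg hC) hlog1
      have h4 : (e : ℝ) * (δ * Real.log H) ≤ e * Real.log H := by
        have h5 : δ * Real.log H ≤ Real.log H := mul_le_of_le_one_left (by linarith) hδle
        exact mul_le_mul_of_nonneg_left h5 (Nat.cast_nonneg _)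
      rw [hLdef]
      nlinarith
    have hmemE : ∀ p, P p → (p ∉ (D s).natAbs.primeFactors ↔ ¬ (p : ℤ) ∣ D s) := by
      intro p hp
      rw [Nat.mem_primeFactors]
      have h1 : (p : ℤ) ∣ D s ↔ p ∣ (D s).natAbs := Int.natCast_dvd
      rw [h1]
      have h2 := hP p hp
      have h3 : (D s).natAbs ≠ 0 := Int.natAbs_ne_zero.2 hs.2
      tauto
    have h1 := hmain H hHH₁ (D s).natAbs.primeFactors hE (G s)
      (fun p hp hpE => ⟨hP p hp, hG s p hp ((hmemE p hp).1 hpE)⟩) S x hw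
    have h2 : (B s).card ≤ (S.filter fun n => ∀ p, P p → p ∉ (D s).natAbs.primeFactors →
        (p : ℝ) ≤ Real.log H ^ (2 / θ) → red p (x n) ∉ G s p).card := by
      apply Finset.card_le_card
      intro n hn
      simp only [B, Finset.mem_filter] at hn ⊢
      exact ⟨hn.1, fun p hp hpE hpA => hn.2 p hp ((hmemE p hp).1 hpE) hpA⟩
    have h3 : (H : ℝ) ^ (-δ₀) ≤ (H : ℝ) ^ (-δ₁) :=
      Real.rpow_le_rpow_of_exponent_le hHr (neg_le_neg (min_le_left _ _))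
    calc ((B s).card : ℝ) ≤ _ := by exact_mod_cast h2
      _ ≤ _ := h1
      _ ≤ _ := mul_le_mul_of_nonneg_left h3 (by positivity)
  have hsub : (S.filter fun n => ∃ s : J → ℤ, (∀ j, |(s j : ℝ)| ≤ X) ∧
        D s ≠ 0 ∧ ∀ p, P p → ¬ (p : ℤ) ∣ D s → (p : ℝ) ≤ Real.log H ^ (2 / θ) →
          red p (x n) ∉ G s p) ⊆ W.biUnion B := by
    intro n hn
    rw [Finset.mem_filter] at hn
    obtain ⟨hv, s, h1, h2, h3⟩ := hn
    rw [Finset.mem_biUnion]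
    exact ⟨s, (hWmem s).2 ⟨h1, h2⟩, by simp only [B, Finset.mem_filter]; exact ⟨hv, h3⟩⟩
  have hWc : (W.card : ℝ) ≤ (3 * X) ^ N := by
    refine le_trans ?_ (card_small (J := J) X hX1)
    exact Nat.cast_le.2 (Finset.card_filter_le _ _)
  have hsum : ((W.biUnion B).card : ℝ) ≤ W.card * (S.card * (H : ℝ) ^ (-δ₁)) := by
    calc ((W.biUnion B).card : ℝ) ≤ ((∑ w ∈ W, (B w).card : ℕ) : ℝ) := by
          exact_mod_cast Finset.card_biUnion_le
      _ = ∑ w ∈ W, ((B w).card : ℝ) := by push_cast; rfl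
      _ ≤ ∑ _w ∈ W, (S.card * (H : ℝ) ^ (-δ₁)) := Finset.sum_le_sum hB
      _ = _ := by rw [Finset.sum_const, nsmul_eq_mul]
  have hpow : (3 * X) ^ N * (H : ℝ) ^ (-δ₁) ≤ (H : ℝ) ^ (-δ) := by
    have h1 := hH₂ H hHH₂
    have h2 : X ^ N = (H : ℝ) ^ (δ * N) := by
      rw [hX, ← Real.rpow_natCast, ← Real.rpow_mul hHr0.le]
    rw [mul_pow, h2]
    calc (3 : ℝ) ^ N * (H : ℝ) ^ (δ * N) * (H : ℝ) ^ (-δ₁) ≤
          (H : ℝ) ^ (δ₁ / 2) * (H : ℝ) ^ (δ * N) * (H : ℝ) ^ (-δ₁) := by gcongr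
      _ = (H : ℝ) ^ (δ₁ / 2 + δ * N + -δ₁) := by
          rw [Real.rpow_add hHr0, Real.rpow_add hHr0]
      _ = (H : ℝ) ^ (-δ) := by
          congr 1
          rw [hδ]
          field_simp
          ring
  calc ((S.filter fun n => ∃ s : J → ℤ, (∀ j, |(s j : ℝ)| ≤ X) ∧
        D s ≠ 0 ∧ ∀ p, P p → ¬ (p : ℤ) ∣ D s → (p : ℝ) ≤ Real.log H ^ (2 / θ) →
          red p (x n) ∉ G s p).card : ℝ) ≤ ((W.biUnion B).card : ℝ) := by
        exact_mod_cast Finset.card_le_card hsub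
    _ ≤ W.card * (S.card * (H : ℝ) ^ (-δ₁)) := hsum
    _ ≤ (3 * X) ^ N * (S.card * (H : ℝ) ^ (-δ₁)) := by gcongr
    _ = S.card * ((3 * X) ^ N * (H : ℝ) ^ (-δ₁)) := by ring
    _ ≤ _ := mul_le_mul_of_nonneg_left hpow (by positivity)

end Pool.Agent.N84.TS
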